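import Mathlib
import Pool.Agent.V1175.MS.Ops

/-!
# The sequence `√k/k!` is a multiplier sequence
-/

set_option autoImplicit false

namespace Pool.Agent.Results.MP_21a1fd_an.SqrtMultiplier

open Polynomial

/-- The polynomial `∑ γ_k a_k x^k` attached to `p = ∑ a_k x^k`. -/
noncomputable def diag (γ : ℕ → ℝ) (p : ℝ[X]) : ℝ[X] :=
  ∑ k ∈ Finset.range (p.natDegree + 1), C (γ k * p.coeff k) * X ^ k

/-- All complex zeros of `p` are real. -/
def OnlyRealZeros (p : ℝ[X]) : Prop := ∀ z : ℂ, aeval z p = 0 → z.im = 0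

/-- `γ` is a multiplier sequence: if all the zeros of `p = ∑ a_k x^k` are real, then
`∑ γ_k a_k x^k` has only real zeros or is the zero polynomial. -/
def IsMultiplierSequence (γ : ℕ → ℝ) : Prop :=
  ∀ p : ℝ[X], OnlyRealZeros p → diag γ p = 0 ∨ OnlyRealZeros (diag γ p)

/-- `√k/k!` is a multiplier sequence; the degenerate case of the zero polynomial occurs only for
constant `p`. More generally `k^s/k!` is a multiplier sequence for `1/2 ≤ s ≤ 1`. -/
theorem result :
    IsMultiplierSequence (fun k => Real.sqrt k / (k.factorial : ℝ)) ∧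
    (∀ p : ℝ[X], OnlyRealZeros p → 0 < p.natDegree →
      OnlyRealZeros (diag (fun k => Real.sqrt k / (k.factorial : ℝ)) p)) ∧
    (∀ s : ℝ, 1 / 2 ≤ s → s ≤ 1 →
      IsMultiplierSequence (fun k => (k : ℝ) ^ s / (k.factorial : ℝ))) := by
  have hmain : ∀ s : ℝ, 1 / 2 ≤ s → s ≤ 1 →
      IsMultiplierSequence (fun k => (k : ℝ) ^ s / (k.factorial : ℝ)) := by
    intro s hs hs1 p hp
    have h := Pool.Agent.V1175.MS.pow_mult' hs hs1 p.natDegree p (Or.inr hp) le_rfl
    exact h
  have hsqrt : IsMultiplierSequence (fun k => Real.sqrt k / (k.factorial : ℝ)) := by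
    have h := hmain (1 / 2) le_rfl (by norm_num)
    simp only [← Real.sqrt_eq_rpow] at h
    exact h
  refine ⟨hsqrt, ?_, hmain⟩
  intro p hp hd
  rcases hsqrt p hp with h | h
  · exfalso
    have h1 := congrArg (fun q => q.coeff p.natDegree) h
    unfold diag at h1
    simp only [finsetSum_coeff, coeff_C_mul_X_pow, coeff_zero] at h1
    rw [Finset.sum_eq_single p.natDegree] at h1
    · simp only [if_true] at h1
      have hp0 : p ≠ 0 := by rintro rfl; simp at hd
      have h2 : p.coeff p.natDegree ≠ 0 := by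
        rw [coeff_natDegree]; exact leadingCoeff_ne_zero.mpr hp0
      have h3 : (0 : ℝ) < p.natDegree := by exact_mod_cast hd
      have h4 : 0 < Real.sqrt (p.natDegree : ℝ) := Real.sqrt_pos.mpr h3
      have h5 : (0 : ℝ) < (p.natDegree.factorial : ℝ) := by positivity
      rcases mul_eq_zero.mp h1 with h6 | h6
      · exact absurd h6 (by positivity)
      · exact h2 h6
    · intro j _ hj
      rw [if_neg (Ne.symm hj)]
    · intro hh; exact absurd (Finset.mem_range.mpr (Nat.lt_succ_self _)) hh
  · exact h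

end Pool.Agent.Results.MP_21a1fd_an.SqrtMultiplier
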